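import Mathlib
import Pool.Agent.R405.TP3

set_option autoImplicit false

/-!
# Vojta's inequality for the algebraic points of projective space with at most two places above `S`

`k` is a number field, `X = ℙⁿ` with `n` arbitrary, `D` a sum of arbitrarily many hyperplanes over `k`
in general position, `S` any finite set of places of `k` which contains the archimedean ones. The
points are all algebraic points `x` of `X`, of arbitrary degree; `L` is a number field over which `x`
is defined, for example `L = k(x)`, and `s` is the number of the places of `L` above `S`. `h_K` is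
`-(n + 1) h`.

For `s ≤ 2` Vojta's inequality holds with an absolute constant on the right side: for `k = ℚ`,
`S = {∞}` these are the rational points, all quadratic points, the cubic points with complex
conjugates, the points over totally complex quartic fields. For general `s` the inequality holds with
`(n + 1) (s / 2 - 1) h(x)` in place of the discriminant term.
-/

namespace Pool.Agent.Results.MP_71c16a_nt.AtMostTwoPlaces

open NumberField IsDedekindDomain

/-- The value of the linear form with the coefficients `a` over `k` at a point over `L`. -/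
def value {k L : Type} [Field k] [Field L] [Algebra k L] {n : ℕ} (a : Fin (n + 1) → k)
    (x : Fin (n + 1) → L) : L := ∑ j, algebraMap k L (a j) * x j

/-- Hyperplanes in general position: any `n + 1` or fewer of the linear forms are linearly
independent. -/
def InGeneralPosition {k : Type} [Field k] {n q : ℕ} (H : Fin q → Fin (n + 1) → k) : Prop :=
  ∀ I : Finset (Fin q), I.card ≤ n + 1 → LinearIndependent k (fun i : I => H i)

/-- The logarithmic height relative to `k` of a point over `L`. -/
noncomputable def height (k : Type) {L : Type} [Field k] [Field L] [NumberField L] [Algebra k L]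
    {n : ℕ} (x : Fin (n + 1) → L) : ℝ := Height.logHeight x / Module.finrank k L

/-- The primes of `L` above the primes in `S`. -/
def primesAbove {k : Type} [Field k] [NumberField k] (S : Finset (HeightOneSpectrum (𝓞 k)))
    (L : Type) [Field L] [NumberField L] [Algebra k L] : Set (HeightOneSpectrum (𝓞 L)) :=
  {w | ∃ v ∈ S, w.asIdeal.LiesOver v.asIdeal}

/-- The number of the places of `L` above the archimedean places of `k` and the primes in `S`. -/
noncomputable def numberOfPlaces {k : Type} [Field k] [NumberField k]
    (S : Finset (HeightOneSpectrum (𝓞 k))) (L : Type) [Field L] [NumberField L] [Algebra k L] : ℕ :=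
  Fintype.card (InfinitePlace L) + (primesAbove S L).ncard

/-- The local height `∑ i, log (max_j |x_j| / |H_i(x)|)` of the divisor `D`, for an absolute value of
`L`. -/
noncomputable def weil {k L : Type} [Field k] [Field L] [Algebra k L] {n q : ℕ}
    (f : AbsoluteValue L ℝ) (H : Fin q → Fin (n + 1) → k) (x : Fin (n + 1) → L) : ℝ :=
  ∑ i, Real.log ((⨆ j, f (x j)) / f (value (H i) x))

/-- The proximity function `∑_{ν ∈ S} λ_D(x, ν)` relative to `k`, where `S` consists of the
archimedean places of `k` and the primes in `S`: the sum of the local heights over the infinite places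
`w` of `L` (with the factor `[L_w : ℝ]`) and over the primes of `L` above the primes in `S` (with the
absolute value `N(w) ^ (- ord_w)`), divided by `[L : k]`. -/
noncomputable def proximity {k L : Type} [Field k] [NumberField k] [Field L] [NumberField L]
    [Algebra k L] {n q : ℕ} (S : Finset (HeightOneSpectrum (𝓞 k))) (H : Fin q → Fin (n + 1) → k)
    (x : Fin (n + 1) → L) : ℝ :=
  (∑ w : InfinitePlace L, (w.mult : ℝ) * weil w.1 H x +
    ∑ᶠ w ∈ primesAbove S L, weil (FinitePlace.mk w).1 H x) / Module.finrank k L

/-- **Vojta's inequality for algebraic points with at most two places above `S`.** Let `H_i` be `q`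
linear forms over the number field `k` in general position in `n + 1` variables. There are a finite
set `Z` of hyperplanes over `k` and a constant `C` such that for all finite sets `S` of primes of `k`
(the archimedean places are always added), all finite extensions `L` of `k` and all points `x` of `ℙⁿ`
over `L` outside `D` and `Z`, with `s` the number of places of `L` above `S`,
`h_K(x) + ∑_{ν ∈ S} λ_D(x, ν) ≤ (n + 1) max(0, s / 2 - 1) h(x) + max(1, s / 2) C`. -/
theorem result (k : Type) [Field k] [NumberField k] (n q : ℕ) (H : Fin q → Fin (n + 1) → k)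
    (hH : InGeneralPosition H) :
    ∃ Z : Finset (Fin (n + 1) → k), (∀ m ∈ Z, m ≠ 0) ∧ ∃ C : ℝ,
      ∀ (S : Finset (HeightOneSpectrum (𝓞 k))) (L : Type) [Field L] [NumberField L] [Algebra k L]
        (x : Fin (n + 1) → L), x ≠ 0 → (∀ i, value (H i) x ≠ 0) → (∀ m ∈ Z, value m x ≠ 0) →
        (numberOfPlaces S L ≤ 2 → -(n + 1) * height k x + proximity S H x ≤ C) ∧
        -(n + 1) * height k x + proximity S H x ≤
          (n + 1) * max 0 ((numberOfPlaces S L : ℝ) / 2 - 1) * height k x +
            max 1 ((numberOfPlaces S L : ℝ) / 2) * C := by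
  classical
  obtain ⟨Z, hZ, C, hC0, hmain⟩ := Pool.Agent.R405.TP.tpT (k := k) (N := n + 1) (by omega) H hH
  refine ⟨Z, hZ, C, fun S L _ _ _ x hx hHx hZx => ?_⟩
  -- the places above `S`
  have hfin : (primesAbove S L).Finite := by
    have h1 : primesAbove S L ⊆ ⋃ v ∈ S, {w | w.asIdeal.LiesOver v.asIdeal} := by
      rintro w ⟨v, hv, hw⟩
      simp only [Set.mem_iUnion]
      exact ⟨v, hv, hw⟩
    refine (S.finite_toSet.biUnion fun v _ => ?_).subset h1
    have h2 : (Ideal.primesOver v.asIdeal (𝓞 L)).Finite :=
      IsDedekindDomain.primesOver_finite v.asIdeal (𝓞 L)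
    refine Set.Finite.of_finite_image (f := fun w : HeightOneSpectrum (𝓞 L) => w.asIdeal)
      (h2.subset ?_) (fun w _ w' _ h => HeightOneSpectrum.ext h)
    rintro _ ⟨w, hw, rfl⟩
    exact ⟨w.isPrime, hw⟩
  set W : Finset (InfinitePlace L ⊕ HeightOneSpectrum (𝓞 L)) :=
    (Finset.univ : Finset (InfinitePlace L)).disjSum hfin.toFinset with hW
  have hcard : W.card = numberOfPlaces S L := by
    rw [hW, Finset.card_disjSum, Finset.card_univ, numberOfPlaces,
      Set.ncard_eq_toFinset_card _ hfin]
  have h1 := hmain L W x hx hZx hHx
  have hweil : ∀ f : AbsoluteValue L ℝ, ∑ l, (Real.log (Pool.Agent.W180.OP.nrm f x) -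
      Real.log (f (Pool.Agent.R405.dot (Pool.Agent.R405.exv L (H l)) x))) = weil f H x := by
    intro f
    refine Finset.sum_congr rfl fun l _ => ?_
    exact (Real.log_div (Pool.Agent.W180.OP.nrm_pos f hx).ne' (f.pos_iff.2 (hHx l)).ne').symm
  have hprox : ∑ p ∈ W, Pool.Agent.W180.OP.wt p * ∑ l,
      (Real.log (Pool.Agent.W180.OP.nrm (Pool.Agent.W180.OP.av p) x) -
        Real.log (Pool.Agent.W180.OP.av p (Pool.Agent.R405.dot (Pool.Agent.R405.exv L (H l)) x))) =
      ∑ w : InfinitePlace L, (w.mult : ℝ) * weil w.1 H x +
        ∑ᶠ w ∈ primesAbove S L, weil (FinitePlace.mk w).1 H x := by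
    rw [hW, Finset.sum_disjSum]
    simp only [hweil]
    congr 1
    rw [finsum_mem_eq_finite_toFinset_sum _ hfin]
    exact Finset.sum_congr rfl fun w _ => one_mul _
  have hd : (0 : ℝ) < Module.finrank k L := by exact_mod_cast Module.finrank_pos
  have h2 : proximity S H x ≤ max 1 ((numberOfPlaces S L : ℝ) / 2) *
      ((n + 1) * height k x + C) := by
    rw [hprox, hcard] at h1
    unfold proximity height
    rw [div_le_iff₀ hd]
    refine h1.trans (le_of_eq ?_)
    push_cast
    field_simp
  have h3 : max 1 ((numberOfPlaces S L : ℝ) / 2) = 1 + max 0 ((numberOfPlaces S L : ℝ) / 2 - 1) := by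
    rw [← max_add_add_left]
    congr 1 <;> ring
  have h4 : -(n + 1) * height k x + proximity S H x ≤
      (n + 1) * max 0 ((numberOfPlaces S L : ℝ) / 2 - 1) * height k x +
        max 1 ((numberOfPlaces S L : ℝ) / 2) * C := by
    have h5 : max 1 ((numberOfPlaces S L : ℝ) / 2) * ((n + 1) * height k x + C) =
        (n + 1) * height k x + (n + 1) * max 0 ((numberOfPlaces S L : ℝ) / 2 - 1) * height k x +
          max 1 ((numberOfPlaces S L : ℝ) / 2) * C := by
      rw [h3]
      ring
    linarith
  refine ⟨fun hs => ?_, h4⟩
  have h5 : (numberOfPlaces S L : ℝ) / 2 ≤ 1 := by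
    have : (numberOfPlaces S L : ℝ) ≤ 2 := by exact_mod_cast hs
    linarith
  rw [max_eq_left (by linarith : (numberOfPlaces S L : ℝ) / 2 - 1 ≤ 0), max_eq_left h5] at h4
  linarith

end Pool.Agent.Results.MP_71c16a_nt.AtMostTwoPlaces
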