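import Mathlib
import Pool.Agent.R405.IQ3

set_option autoImplicit false

/-!
# Vojta's inequality for the imaginary quadratic points of projective space

`k = ℚ`, `X = ℙⁿ` with `n` arbitrary, `S = {∞}` and `r = 2`. `D` is a normal crossings divisor over
`ℚ` which over `ℝ` is a union of hyperplanes: its geometric components are arbitrarily many
hyperplanes in general position with coefficients in a number field `K` which is embedded in `ℝ`
(they may be conjugate over `ℚ`). The points are the algebraic points of `X` of degree at most two
over `ℚ` whose field has only one archimedean place: the rational points and the points over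
imaginary quadratic fields, over all these fields at the same time. `h_K = -(n + 1) h`.
-/

namespace Pool.Agent.Results.MP_71c16a_nt.ImaginaryQuadraticPoints

open MvPolynomial NumberField

/-- The linear form with the coefficients `a`. -/
noncomputable def linearForm {K : Type} [Field K] {n : ℕ} (a : Fin (n + 1) → K) :
    MvPolynomial (Fin (n + 1)) K := ∑ j, C (a j) * X j

/-- Hyperplanes in general position: any `n + 1` or fewer of the linear forms are linearly
independent. -/
def InGeneralPosition {K : Type} [Field K] {n q : ℕ} (H : Fin q → Fin (n + 1) → K) : Prop :=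
  ∀ I : Finset (Fin q), I.card ≤ n + 1 → LinearIndependent K (fun i : I => H i)

/-- The absolute logarithmic height of a point of `ℙⁿ` over the number field `L`. -/
noncomputable def height {L : Type} [Field L] [NumberField L] {n : ℕ} (x : Fin (n + 1) → L) : ℝ :=
  Height.logHeight x / Module.finrank ℚ L

/-- The local height `λ_D(x, ∞)` of the divisor `G = 0` of degree `d` at a point over `L`, for a
number field `L` with only one archimedean place `w`: the average over the places of `L` above `∞`
with the weights `[L_w : ℝ] / [L : ℚ]` has the only term `w`, with the weight `1`. -/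
noncomputable def localHeight {L : Type} [Field L] [NumberField L] (w : InfinitePlace L) {n : ℕ}
    (d : ℕ) (G : MvPolynomial (Fin (n + 1)) ℚ) (x : Fin (n + 1) → L) : ℝ :=
  d * Real.log (⨆ j, w (x j)) - Real.log (w (aeval x G))

/-- **Vojta's inequality for imaginary quadratic points.** Let the form `G` over `ℚ` be a product of
`q` linear forms `H_i` in general position over a number field `K` with a real embedding. There is a
finite set `Z` of hyperplanes over `ℚ` such that for every `ε > 0` there is a constant `C` with
`h_K(x) + λ_D(x, ∞) ≤ ε h(x) + C` for all number fields `L` of degree at most two over `ℚ` with only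
one archimedean place and all points `x` of `ℙⁿ` over `L` outside `D` and `Z`. -/
theorem result (n q : ℕ) (K : Type) [Field K] [NumberField K] (φ : K →+* ℝ)
    (H : Fin q → Fin (n + 1) → K) (hH : InGeneralPosition H) (G : MvPolynomial (Fin (n + 1)) ℚ)
    (hG : map (algebraMap ℚ K) G = ∏ i, linearForm (H i)) :
    ∃ Z : Finset (Fin (n + 1) → ℚ), (∀ m ∈ Z, m ≠ 0) ∧ ∀ ε : ℝ, 0 < ε → ∃ C : ℝ,
      ∀ (L : Type) [Field L] [NumberField L], Module.finrank ℚ L ≤ 2 → ∀ w : InfinitePlace L,
        (∀ w' : InfinitePlace L, w' = w) → ∀ x : Fin (n + 1) → L, x ≠ 0 → aeval x G ≠ 0 →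
        (∀ m ∈ Z, ∑ j, algebraMap ℚ L (m j) * x j ≠ 0) →
        -(n + 1) * height x + localHeight w q G x ≤ ε * height x + C := by
  obtain ⟨Z, hZ, hmain⟩ := Pool.Agent.R405.IQ.iqT (n + 1) (by omega) q K φ H hH G hG
  refine ⟨Z, hZ, fun ε hε => ?_⟩
  obtain ⟨C, hC⟩ := hmain ε hε
  refine ⟨C, fun L _ _ hL w hw x hx _ hZx => ?_⟩
  have h1 := hC L hL w hw x hx hZx
  push_cast at h1
  unfold localHeight height
  linarith

end Pool.Agent.Results.MP_71c16a_nt.ImaginaryQuadraticPoints
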