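import Mathlib
import Pool.Agent.R405.PP7

set_option autoImplicit false

/-!
# Vojta's inequality on products of projective lines at one place

`X = (ℙ¹)^n` over a number field `k`, `n` arbitrary, and `D` is a normal crossings divisor over `k`
whose geometric components are fibres of the `n` projections, over any finite extension `K` of `k`
(they may be conjugate over `k`), and divisors of bidegree `(1, 1)` in two of the coordinates (graphs
of automorphisms of `ℙ¹`) over `k`. There may be arbitrarily many components of both kinds. `S`
consists of one arbitrary place.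

Points of `X` have homogeneous coordinates `x i 0, x i 1` in the factor `i`; `K_X` is minus twice the
sum of the classes of the fibres, so `h_K = -2 ∑ h(x_i)`, and `∑ h(x_i)` is the height for an ample
divisor.
-/

namespace Pool.Agent.Results.MP_71c16a_nt.ProductsOfLines

open MvPolynomial NumberField IsDedekindDomain

/-- The places of a number field: the archimedean places and the primes. -/
abbrev Place (k : Type) [Field k] [NumberField k] : Type :=
  InfinitePlace k ⊕ HeightOneSpectrum (𝓞 k)

/-- The components: fibres, over `K`, and divisors of bidegree `(1, 1)` in two coordinates, over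
`k`. -/
inductive Component (k K : Type) (n : ℕ) : Type where
  | fibre (i : Fin n) (a : Fin 2 → K)
  | graph (i j : Fin n) (A : Matrix (Fin 2) (Fin 2) k)

/-- The equation of a component: `∑ a_b X_{i,b}` or `∑ A_{b,c} X_{i,b} X_{j,c}`. -/
noncomputable def Component.equation {k K : Type} [Field k] [Field K] [Algebra k K] {n : ℕ}
    (c : Component k K n) : MvPolynomial (Fin n × Fin 2) K :=
  match c with
  | .fibre i a => ∑ b, C (a b) * X (i, b)
  | .graph i j A => ∑ b, ∑ c, C (algebraMap k K (A b c)) * X (i, b) * X (j, c)

/-- A fibre has a nonzero equation; a divisor of bidegree `(1, 1)` has two different coordinates and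
is irreducible (the matrix is invertible). -/
def Component.IsValid {k K : Type} [Field k] [Field K] {n : ℕ} (c : Component k K n) : Prop :=
  match c with
  | .fibre _ a => a ≠ 0
  | .graph i j A => i ≠ j ∧ A.det ≠ 0

/-- The degree of the equation in the coordinates of the factor `i`. -/
def Component.degree {k K : Type} {n : ℕ} (c : Component k K n) (i : Fin n) : ℕ :=
  match c with
  | .fibre m _ => if m = i then 1 else 0
  | .graph m l _ => (if m = i then 1 else 0) + (if l = i then 1 else 0)

/-- The components are smooth and cross transversally: at each point of `(ℙ¹)^n`, over each extension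
field, the gradients of the equations which vanish there are linearly independent. -/
def IsNormalCrossings {k K : Type} [Field k] [Field K] [Algebra k K] {n : ℕ} {ι : Type}
    (F : ι → Component k K n) : Prop :=
  ∀ (L : Type) [Field L] [Algebra K L] (y : Fin n → Fin 2 → L), (∀ i, y i ≠ 0) →
    LinearIndependent L (fun (l : {l // aeval (fun p : Fin n × Fin 2 => y p.1 p.2)
      (F l).equation = 0}) (p : Fin n × Fin 2) =>
        aeval (fun p : Fin n × Fin 2 => y p.1 p.2) (pderiv p (F l).equation))

/-- The local height `[k : ℚ] d_v λ_{D,v}` of the divisor `D` with equation `G` of degree `e i` in the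
coordinates of the factor `i`. The absolute value of a prime `p` is the normalised one, with the
value `(N p) ^ (-ord_p x)`; a complex place has multiplicity `2`, a real place has multiplicity
`1`. -/
noncomputable def localHeight {k : Type} [Field k] [NumberField k] (v : Place k) {n : ℕ}
    (e : Fin n → ℕ) (G : MvPolynomial (Fin n × Fin 2) k) (x : Fin n → Fin 2 → k) : ℝ :=
  match v with
  | Sum.inl w => w.mult * Real.log ((∏ i, (⨆ b, w (x i b)) ^ e i) /
      w (eval (fun p : Fin n × Fin 2 => x p.1 p.2) G))
  | Sum.inr p => Real.log ((∏ i, (⨆ b, FinitePlace.mk p (x i b)) ^ e i) /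
      FinitePlace.mk p (eval (fun p : Fin n × Fin 2 => x p.1 p.2) G))

/-- The form `∑ A_{b,c} X_{i,b} X_{j,c}` over `k` is the equation of the graph of an automorphism of
`ℙ¹` (`i ≠ j`) or a nonzero quadratic form in the coordinates of one factor (`i = j`). -/
def IsExceptional {k : Type} [Field k] {n : ℕ} (z : Fin n × Fin n × Matrix (Fin 2) (Fin 2) k) :
    Prop :=
  (z.1 ≠ z.2.1 → z.2.2.det ≠ 0) ∧
    (z.1 = z.2.1 → z.2.2 0 0 ≠ 0 ∨ z.2.2 1 1 ≠ 0 ∨ z.2.2 0 1 + z.2.2 1 0 ≠ 0)

open Pool.Agent.R405.PP (Cp NC push)

/-- the component in the helper files -/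
def Component.toCp {k K : Type} [Field k] [Field K] [Algebra k K] {n : ℕ}
    (c : Component k K n) : Cp (Fin n) K :=
  match c with
  | .fibre i a => .mk i a
  | .graph i j A => .bl i j (A.map (algebraMap k K))

theorem aeval_equation {k K L : Type} [Field k] [Field K] [Algebra k K] [Field L] [Algebra K L]
    {n : ℕ} (c : Component k K n) (y : Fin n → Fin 2 → L) :
    aeval (fun p : Fin n × Fin 2 => y p.1 p.2) c.equation = c.toCp.val y := by
  cases c with
  | fibre i a => simp only [Component.equation, Component.toCp, Cp.val, map_sum, map_mul, aeval_C,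
      aeval_X]
  | graph i j A => simp only [Component.equation, Component.toCp, Cp.val, map_sum, map_mul, aeval_C,
      aeval_X, Matrix.map_apply]

theorem aeval_pderiv {k K L : Type} [Field k] [Field K] [Algebra k K] [Field L] [Algebra K L]
    {n : ℕ} (c : Component k K n) (y z : Fin n → Fin 2 → L) (i : Fin n) :
    ∑ b, aeval (fun p : Fin n × Fin 2 => y p.1 p.2) (pderiv (i, b) c.equation) * z i b =
      c.toCp.der y z i := by
  classical
  cases c with
  | fibre m a =>
    have h1 : ∀ b : Fin 2, pderiv (i, b) (Component.equation (k := k) (.fibre m a)) =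
        if m = i then C (a b) else 0 := by
      intro b
      simp only [Component.equation, map_sum, Derivation.leibniz, pderiv_X, pderiv_C, smul_zero,
        add_zero, smul_eq_mul, Fin.sum_univ_two]
      by_cases hm : m = i
      · subst hm
        rw [if_pos rfl]
        fin_cases b <;> simp
      · rw [if_neg hm]
        simp [hm]
    simp only [h1, Component.toCp, Cp.der]
    by_cases hm : m = i
    · subst hm
      simp
    · rw [Pi.single_eq_of_ne (Ne.symm hm)]
      simp [hm]
  | graph m l A =>
    have h1 : ∀ b : Fin 2, pderiv (i, b) (Component.equation (K := K) (.graph m l A)) =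
        (if m = i then ∑ c, C (algebraMap k K (A b c)) * X (l, c) else 0) +
        (if l = i then ∑ c, C (algebraMap k K (A c b)) * X (m, c) else 0) := by
      intro b
      simp only [Component.equation, map_sum, Derivation.leibniz, pderiv_X, pderiv_C, smul_zero,
        add_zero, smul_eq_mul, Fin.sum_univ_two]
      by_cases hm : m = i
      · by_cases hl : l = i
        · subst hm
          subst hl
          simp only [if_true]
          fin_cases b <;> simp <;> ring
        · subst hm
          simp only [if_true, if_neg hl]
          fin_cases b <;> simp [hl] <;> ring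
      · by_cases hl : l = i
        · subst hl
          simp only [if_true, if_neg hm]
          fin_cases b <;> simp [hm] <;> ring
        · simp [hm, hl]
    simp only [h1, Component.toCp, Cp.der, Pi.add_apply, map_add, Matrix.map_apply]
    by_cases hm : m = i
    · by_cases hl : l = i
      · subst hm
        subst hl
        simp only [if_true, Pi.single_eq_same, map_add, map_mul, aeval_C, aeval_X,
          Fin.sum_univ_two]
        ring
      · subst hm
        simp only [if_true, if_neg hl, Pi.single_eq_same, Pi.single_eq_of_ne (Ne.symm hl), map_add,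
          map_mul, aeval_C, aeval_X, Fin.sum_univ_two, map_zero]
        ring
    · by_cases hl : l = i
      · subst hl
        simp only [if_true, if_neg hm, Pi.single_eq_same, Pi.single_eq_of_ne (Ne.symm hm), map_add,
          map_mul, aeval_C, aeval_X, Fin.sum_univ_two, map_zero]
        ring
      · simp only [if_neg hm, if_neg hl, Pi.single_eq_of_ne (Ne.symm hm),
          Pi.single_eq_of_ne (Ne.symm hl), map_zero, add_zero, zero_mul, Finset.sum_const_zero]

/-- the normal crossings condition in the form of the helper files -/
theorem nc_toCp {k K : Type} [Field k] [Field K] [Algebra k K] {n : ℕ} {ι : Type} [Fintype ι]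
    {F : ι → Component k K n} (hF : IsNormalCrossings F) :
    NC (fun l => (F l).toCp) Finset.univ := by
  classical
  intro L _ _ y z hyz g hg hsum
  have hy : ∀ i, y i ≠ 0 := by
    intro i h0
    apply hyz i
    rw [h0]
    simp
  have h1 := hF L y hy
  -- the gradients
  set w : Fin n × Fin 2 → L := fun p => ∑ l, g l *
    aeval (fun p : Fin n × Fin 2 => y p.1 p.2) (pderiv p (F l).equation) with hw
  have hw0 : w = 0 := by
    funext ⟨i, b⟩
    have hblock : ∀ u : Fin n → Fin 2 → L, ∑ b, w (i, b) * u i b =
        ∑ l, g l * (F l).toCp.der y u i := by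
      intro u
      simp only [hw, Finset.sum_mul]
      rw [Finset.sum_comm]
      refine Finset.sum_congr rfl fun l _ => ?_
      rw [← aeval_pderiv, Finset.mul_sum]
      exact Finset.sum_congr rfl fun b _ => by ring
    have hz : ∑ b, w (i, b) * z i b = 0 := by
      rw [hblock]
      have h2 := congrFun hsum i
      rw [Finset.sum_apply] at h2
      exact h2
    have hyy : ∑ b, w (i, b) * y i b = 0 := by
      rw [hblock]
      refine Finset.sum_eq_zero fun l _ => ?_
      by_cases hv : (F l).toCp.val y = 0
      · have h3 : (F l).toCp.der y y i = 0 := by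
          cases hFl : F l with
          | fibre m a =>
            rw [hFl] at hv
            simp only [Component.toCp, Cp.der, Cp.val] at hv ⊢
            rw [hv, Pi.single_zero, Pi.zero_apply]
          | graph m l' A =>
            rw [hFl] at hv
            simp only [Component.toCp, Cp.der, Cp.val] at hv ⊢
            rw [hv, Pi.single_zero, Pi.single_zero, add_zero, Pi.zero_apply]
        rw [h3, mul_zero]
      · rw [hg l (Finset.mem_univ l) hv, zero_mul]
    rw [Fin.sum_univ_two] at hz hyy
    have e0 : w (i, 0) * (y i 0 * z i 1 - y i 1 * z i 0) = 0 := by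
      linear_combination z i 1 * hyy - y i 1 * hz
    have e1 : w (i, 1) * (y i 0 * z i 1 - y i 1 * z i 0) = 0 := by
      linear_combination -z i 0 * hyy + y i 0 * hz
    fin_cases b
    · exact (mul_eq_zero.1 e0).resolve_right (hyz i)
    · exact (mul_eq_zero.1 e1).resolve_right (hyz i)
  intro l _
  by_cases hv : (F l).toCp.val y = 0
  · rw [Fintype.linearIndependent_iff] at h1
    have h2 := h1 (fun l => g l.1) (by
      funext p
      rw [Finset.sum_apply]
      have h3 : ∑ l, g l * aeval (fun p : Fin n × Fin 2 => y p.1 p.2)
        (pderiv p (F l).equation) = 0 := congrFun hw0 p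
      have h4 : ∀ l : ι, l ∉ Finset.univ.filter (fun l => aeval (fun p : Fin n × Fin 2 => y p.1 p.2)
          (F l).equation = 0) → g l * aeval (fun p : Fin n × Fin 2 => y p.1 p.2)
            (pderiv p (F l).equation) = 0 := by
        intro l hl
        rw [hg l (Finset.mem_univ l) (fun h5 => hl (Finset.mem_filter.2 ⟨Finset.mem_univ _, by
          rw [aeval_equation]; exact h5⟩)), zero_mul]
      refine Eq.trans ?_ h3
      rw [← Finset.sum_subset (Finset.subset_univ _) fun l _ hl => h4 l hl]
      rw [← Finset.sum_subtype_eq_sum_filter]
      simp only [Finset.subtype_univ]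
      rfl) ⟨l, by rw [aeval_equation]; exact hv⟩
    exact h2
  · exact hg l (Finset.mem_univ l) hv

/-- **Vojta's inequality on `(ℙ¹)^n` at one place.** Let `D = {G = 0}` be a normal crossings divisor
on `(ℙ¹)^n` over a number field `k` whose geometric components are fibres over an extension `K` of
`k` and irreducible divisors of bidegree `(1, 1)` in two coordinates over `k`. There is a finite set
`Z` of graphs of automorphisms of `ℙ¹` and of quadratic forms in one coordinate over `k` such that
for each place `v` of `k` and each `ε > 0` all rational points `x` off `D` and `Z` satisfy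
`m_{v,D}(x) + h_K(x) ≤ ε ∑ h(x_i) + O(1)`. (All heights are relative to `k`, not divided by
`[k : ℚ]`.) -/
theorem result (k K : Type) [Field k] [NumberField k] [Field K] [NumberField K] [Algebra k K]
    (n : ℕ) (ι : Type) [Fintype ι] (F : ι → Component k K n) (hF : ∀ l, (F l).IsValid)
    (hnc : IsNormalCrossings F) (G : MvPolynomial (Fin n × Fin 2) k)
    (hG : map (algebraMap k K) G = ∏ l, (F l).equation) :
    ∃ Z : Finset (Fin n × Fin n × Matrix (Fin 2) (Fin 2) k), (∀ z ∈ Z, IsExceptional z) ∧
      ∀ (v : Place k) (ε : ℝ), 0 < ε → ∃ C : ℝ, ∀ x : Fin n → Fin 2 → k, (∀ i, x i ≠ 0) →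
        eval (fun p : Fin n × Fin 2 => x p.1 p.2) G ≠ 0 →
        (∀ z ∈ Z, ∑ b, ∑ c, z.2.2 b c * x z.1 b * x z.2.1 c ≠ 0) →
        localHeight v (fun i => ∑ l, (F l).degree i) G x - 2 * ∑ i, Height.logHeight (x i) ≤
          ε * ∑ i, Height.logHeight (x i) + C := by
  classical
  obtain ⟨Z, hZ, hmain⟩ := Pool.Agent.R405.PP.ppT (k := k) (fun l => (F l).toCp) (by
    intro l
    have h1 := hF l
    cases hFl : F l with
    | fibre i a =>
      rw [hFl] at h1
      exact h1
    | graph i j A =>
      rw [hFl] at h1
      refine ⟨⟨A, rfl⟩, fun _ h0 => h1.2 ?_⟩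
      have h2 : (A.map (algebraMap k K)).det = algebraMap k K A.det :=
        ((algebraMap k K).map_det A).symm
      rw [h2] at h0
      exact (map_eq_zero _).1 h0) (nc_toCp hnc)
  refine ⟨Z, hZ, fun v ε hε => ?_⟩
  obtain ⟨C, hC⟩ := hmain v ε hε
  refine ⟨C, fun x hx hGx hZx => ?_⟩
  have h1 := hC x (eval (fun p : Fin n × Fin 2 => x p.1 p.2) G) hx hGx (by
    have h2 : algebraMap k K (eval (fun p : Fin n × Fin 2 => x p.1 p.2) G) =
        aeval (fun p : Fin n × Fin 2 => Pool.Agent.R405.PP.ex K x p.1 p.2)
          (map (algebraMap k K) G) := by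
      rw [aeval_map_algebraMap, ← aeval_eq_eval]
      exact (MvPolynomial.aeval_algebraMap_apply K _ G).symm
    rw [h2, hG, map_prod]
    exact Finset.prod_congr rfl fun l _ => aeval_equation _ _) hZx
  have hN : ∀ v : Place k, 0 < ∏ i, Pool.Agent.W180.OP.nrm (Pool.Agent.W180.OP.av v) (x i) ^
      (∑ l, (F l).degree i) := fun v => Finset.prod_pos fun i _ =>
    pow_pos (Pool.Agent.W180.OP.nrm_pos _ (hx i)) _
  have hdeg : ∀ i l, ((F l).toCp).deg i = (F l).degree i := by
    intro i l
    cases F l <;> rfl
  simp only [hdeg] at h1
  have h2 : localHeight v (fun i => ∑ l, (F l).degree i) G x = Pool.Agent.W180.OP.wt v *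
      (Real.log (∏ i, Pool.Agent.W180.OP.nrm (Pool.Agent.W180.OP.av v) (x i) ^
        (∑ l, (F l).degree i)) - Real.log (Pool.Agent.W180.OP.av v
          (eval (fun p : Fin n × Fin 2 => x p.1 p.2) G))) := by
    rw [← Real.log_div (hN v).ne' ((Pool.Agent.W180.OP.av v).pos_iff.2 hGx).ne']
    rcases v with w | p
    · rfl
    · exact (one_mul _).symm
  rw [h2]
  linarith

end Pool.Agent.Results.MP_71c16a_nt.ProductsOfLines
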