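import Mathlib
import Pool.Agent.R338.Tw4

set_option autoImplicit false

/-!
# MP_71c16a_nt: Vojta's inequality for quadratic points on powers of an elliptic curve

`k = ℚ`, `E : y² = x³ + a x + b` is any elliptic curve over `ℚ`, `X = E^n`, so `K_X = 0`, `D` is the
sum of the pullbacks of the origin under the `n` projections (ample, with simple normal crossings),
`A = D`, `S` consists of the archimedean place and of the primes in a finite set, and `r = 2`.

For rational points (`r = 1`) Faltings has shown that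
`∑_{ν ∈ S} λ_D(x, ν) ≤ ε h_A(x) + O(1)` holds for all points off `D`, for every `ε > 0`, without
exceptional set.
-/

open WeierstrassCurve NumberField Height Module

namespace Pool.Agent.Results.MP_71c16a_nt.QuadraticPointsOnPowers

/-- The curve `y² = x³ + a x + b`. -/
def crv {L : Type} [Field L] (a b : L) : WeierstrassCurve L :=
  { a₁ := 0, a₂ := 0, a₃ := 0, a₄ := a, a₆ := b }

/-- The points over `L`, with the origin. -/
abbrev Pt {L : Type} [Field L] (a b : L) : Type := (crv a b).toAffine.Point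

/-- The `x`-coordinate of a point (`0` at the origin). -/
def xco {L : Type} [Field L] {a b : L} : Pt a b → L
  | .zero => 0
  | .some x _ _ => x

/-- The `y`-coordinate of a point (`0` at the origin). -/
def yco {L : Type} [Field L] {a b : L} : Pt a b → L
  | .zero => 0
  | .some _ y _ => y

variable {L : Type} [Field L] [NumberField L] {a b : L} {n : ℕ}

/-- The coordinates of the point `p` of `X` generate `L` over `ℚ`: `L = ℚ(p)`. -/
def Generates (p : Fin n → Pt a b) : Prop :=
  IntermediateField.adjoin ℚ (Set.range (fun i => xco (p i)) ∪ Set.range (fun i => yco (p i))) = ⊤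

/-- The proximity function `∑_{ν ∈ S} λ_D(p, ν)`: the sum of the local heights
`∑ i, log⁺ |x(p i)|_w / 2` over all archimedean places `w` of `L` and all finite places `w` above the
primes in `S`, divided by `[L : ℚ]`. -/
noncomputable def proximity (S : Finset ℕ) (p : Fin n → Pt a b) : ℝ :=
  ((∑ v : InfinitePlace L, v.mult * ∑ i, Real.posLog (v (xco (p i))) / 2) +
    ∑ᶠ w ∈ {w : FinitePlace L | ∃ q ∈ S, w ((q : ℕ) : L) < 1},
      ∑ i, Real.posLog (w (xco (p i))) / 2) / finrank ℚ L

/-- The height `h_A = h_D`: half the sum of the absolute heights of the `x(p i)`. -/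
noncomputable def height (p : Fin n → Pt a b) : ℝ :=
  (∑ i, logHeight₁ (xco (p i)) / 2) / finrank ℚ L

/-- The logarithmic discriminant `log |disc L| / [L : ℚ]`. -/
noncomputable def logDisc (L : Type) [Field L] [NumberField L] : ℝ :=
  Real.log |(discr L : ℝ)| / finrank ℚ L

/-- Vojta's inequality `h_K + ∑_{ν ∈ S} λ_D(p, ν) ≤ ψ(h_A(p)) + d(p)` on `X = E^n` for all points
`p` of degree at most two off `D` with `G(x(p)) ≠ 0`. The conjecture has `ψ(t) = ε t + C`. -/
def VojtaInequality (a b : ℚ) {n : ℕ} (S : Finset ℕ) (G : MvPolynomial (Fin n) ℚ) (ψ : ℝ → ℝ) :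
    Prop :=
  ∀ (L : Type) [Field L] [NumberField L] (p : Fin n → Pt (a : L) (b : L)),
    finrank ℚ L ≤ 2 → Generates p → (∀ i, p i ≠ 0) →
    MvPolynomial.aeval (fun i => xco (p i)) G ≠ 0 →
    proximity S p ≤ ψ (height p) + logDisc L

/-- Let `θ = 3`, or `θ = 1` if `E` has a rational point of order two.

(1) The curves `{(m₁ P, ..., mₙ P)}` with `ε ∑ mᵢ² < n - θ` are exceptional: they contain points of
degree at most two and of arbitrarily large height which violate the inequality.
(2) If the inequality holds for `ε` for all points of degree at most two with `G(x(p)) ≠ 0`, where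
`G` has degree at most `d` in each variable, then `n - θ ≤ ε n (d + 1)²`.
(3) For `n > θ` there is no such inequality with an error term `ψ(h_A) = o(h_A)`, for any `G`. -/
theorem result (a b : ℚ) (hab : 4 * a ^ 3 + 27 * b ^ 2 ≠ 0) (n : ℕ) (θ : ℝ)
    (hθ : θ = 3 ∨ (θ = 1 ∧ ∃ ρ : ℚ, ρ ^ 3 + a * ρ + b = 0)) (S : Finset ℕ) :
    (∀ (m : Fin n → ℤ) (ε c B : ℝ), (∀ i, m i ≠ 0) → 0 ≤ ε →
      ε * ∑ i, (m i : ℝ) ^ 2 < n - θ →
      ∃ (L : Type) (_ : Field L) (_ : NumberField L) (_ : DecidableEq L)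
        (P : Pt (a : L) (b : L)), finrank ℚ L ≤ 2 ∧ Generates (fun i => m i • P) ∧
        (∀ i, m i • P ≠ 0) ∧ B < height (fun i => m i • P) ∧
        ε * height (fun i => m i • P) + logDisc L + c < proximity S (fun i => m i • P)) ∧
    (∀ (d : ℕ) (G : MvPolynomial (Fin n) ℚ) (ε c : ℝ), G ≠ 0 → (∀ i, G.degreeOf i ≤ d) → 0 ≤ ε →
      VojtaInequality a b S G (fun t => ε * t + c) → n - θ ≤ ε * (n * ((d : ℝ) + 1) ^ 2)) ∧
    (θ < n → ∀ (G : MvPolynomial (Fin n) ℚ) (ψ : ℝ → ℝ), G ≠ 0 →
      (∀ η : ℝ, 0 < η → ∃ t₀ : ℝ, ∀ t, t₀ ≤ t → ψ t ≤ η * t) →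
      ¬ VojtaInequality a b S G ψ) := by
  -- the families
  have key : ∀ X : ℝ, X < n - θ → ∃ θ' : ℝ, 1 ≤ θ' ∧ X < n - θ' ∧ R338.Tw.Fam a b θ' := by
    intro X hX
    rcases hθ with rfl | ⟨rfl, ρ, hρ⟩
    · exact ⟨3, by norm_num, hX, R338.Tw.fam3 a b⟩
    · obtain ⟨j, hj⟩ := exists_nat_gt (2 / (n - 1 - X))
      have hpos : 0 < (n : ℝ) - 1 - X := by linarith
      refine ⟨1 + 2 / (2 * j + 1), ?_, ?_, R338.Tw.fam1 a b ρ hab hρ j⟩
      · have : (0 : ℝ) ≤ 2 / (2 * j + 1) := by positivity
        linarith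
      · have h1 : 2 / (2 * (j : ℝ) + 1) < n - 1 - X := by
          rw [div_lt_iff₀ hpos] at hj
          rw [div_lt_iff₀ (by positivity)]
          nlinarith [Nat.cast_nonneg (α := ℝ) j]
        linarith
  have hn : ∀ X : ℝ, 0 ≤ X → X < n - θ → 0 < n := by
    intro X h0 hX
    obtain ⟨θ', h1, h2, -⟩ := key X hX
    have : (0 : ℝ) < n := by linarith
    exact_mod_cast this
  refine ⟨?_, ?_, ?_⟩
  · intro m ε c B hm hε hs
    have hsq : 0 ≤ ∑ i, (m i : ℝ) ^ 2 := Finset.sum_nonneg fun i _ => sq_nonneg _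
    obtain ⟨θ', -, h2, hF⟩ := key _ hs
    obtain ⟨L, i1, i2, i3, P, h3, h4, -, h5⟩ := R338.Tw.exists_pt hab hF
      (hn _ (mul_nonneg hε hsq) hs) (∑ i, (m i).natAbs) S ε _ c B hε hsq h2
    obtain ⟨h6, h7, h8⟩ := h5 m hm
      (fun i => Finset.single_le_sum (f := fun i => (m i).natAbs) (fun _ _ => Nat.zero_le _)
        (Finset.mem_univ i)) le_rfl
    exact ⟨L, i1, i2, i3, P, h3, h6, fun i => R338.Ab.zsmul_ne_zero_of h4 (hm i), h7, h8⟩
  · intro d G ε c hG hd hε hV
    by_contra hcon
    push Not at hcon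
    obtain ⟨θ', -, h2, hF⟩ := key _ hcon
    obtain ⟨L, i1, i2, p, h3, h4, h5, h6, -, h7⟩ := R338.Tw.viol hab hF
      (hn _ (by positivity) hcon) S d G hG hd ε c 0 hε h2
    have h8 := hV L p h3 h4 h5 h6
    exact absurd h8 (not_le.mpr (by
      have h9 : ε * height p + logDisc L + c < proximity S p := h7
      linarith))
  · intro hnθ G ψ hG hψ hV
    set d : ℕ := G.totalDegree with hd
    have hn0 : 0 < n := hn 0 le_rfl (by linarith)
    have hn0' : (0 : ℝ) < n := by exact_mod_cast hn0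
    set D : ℝ := n * ((d : ℝ) + 1) ^ 2 with hDdef
    have hD0 : 0 < D := by positivity
    set ε : ℝ := (n - θ) / (2 * D) with hεdef
    have hε0 : 0 < ε := div_pos (by linarith) (by positivity)
    have hεD : ε * D < n - θ := by
      have : ε * D = (n - θ) / 2 := by rw [hεdef]; field_simp
      rw [this]
      linarith
    obtain ⟨t0, ht0⟩ := hψ ε hε0
    obtain ⟨θ', -, h2, hF⟩ := key _ hεD
    obtain ⟨L, i1, i2, p, h3, h4, h5, h6, h6', h7⟩ := R338.Tw.viol hab hF hn0 S d G hG
      (fun i => MvPolynomial.degreeOf_le_totalDegree G i) ε 0 t0 hε0.le h2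
    have h8 := hV L p h3 h4 h5 h6
    have h9 := ht0 (height p) h6'.le
    exact absurd h8 (not_le.mpr (by
      have h10 : ε * height p + logDisc L + 0 < proximity S p := h7
      linarith))

end Pool.Agent.Results.MP_71c16a_nt.QuadraticPointsOnPowers
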